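import Pool.Agent.Q128.TK.Times

namespace Pool.Agent.Q128.TK

open Set Filter Topology

/-- `u₀` followed by the blocks `exp (-c_i) w` at the times `n₀ + L i`, `i < I` -/
noncomputable def blk {𝕜 : Type*} [RCLike 𝕜] (n0 L I : ℕ) (c : ℕ → ℝ) (w u0 : ℕ → 𝕜) (k : ℕ) : 𝕜 :=
  if k < n0 then u0 k else
    if (k - n0) / L < I then ((Real.exp (-c ((k - n0) / L)) : ℝ) : 𝕜) * w ((k - n0) % L) else 0

theorem blk_zero {𝕜 : Type*} [RCLike 𝕜] (n0 L I : ℕ) (hL : 0 < L) (c : ℕ → ℝ) (w u0 : ℕ → 𝕜) (k : ℕ)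
    (hk : n0 + L * I ≤ k) : blk n0 L I c w u0 k = 0 := by
  unfold blk
  have h1 : ¬ k < n0 := by
    have : 0 ≤ L * I := Nat.zero_le _
    omega
  have h2 : ¬ (k - n0) / L < I := by
    rw [Nat.div_lt_iff_lt_mul hL, mul_comm]
    omega
  rw [if_neg h1, if_neg h2]

theorem exp_sub_one_le {δ x : ℝ} (h : |x| ≤ δ) : |Real.exp x - 1| ≤ Real.exp δ - 1 := by
  have hδ : 0 ≤ δ := le_trans (abs_nonneg _) h
  rw [abs_le] at h ⊢
  have h1 : Real.exp x ≤ Real.exp δ := Real.exp_le_exp.mpr h.2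
  have h2 : Real.exp (-δ) ≤ Real.exp x := Real.exp_le_exp.mpr h.1
  have h3 : 2 ≤ Real.exp δ + Real.exp (-δ) := by
    have h4 : Real.exp δ * Real.exp (-δ) = 1 := by rw [← Real.exp_add]; simp
    nlinarith [Real.exp_pos δ, Real.exp_pos (-δ), sq_nonneg (Real.exp δ - Real.exp (-δ))]
  constructor <;> linarith

theorem blk_close {𝕜 : Type*} [RCLike 𝕜] (n0 L I : ℕ) (hL : 0 < L) (c : ℕ → ℝ) (w u0 : ℕ → 𝕜)
    (hu0 : ∀ k, n0 ≤ k → u0 k = 0) (M K ε : ℝ) (hM : ∀ k, ‖w k‖ ≤ M) (hKe : Real.exp (-K) * M ≤ ε)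
    (hε : 0 < ε) (hc : ∀ i, K ≤ c i) (k : ℕ) : ‖blk n0 L I c w u0 k - u0 k‖ ≤ ε := by
  unfold blk
  split_ifs with h1 h2
  · simpa using hε.le
  · rw [hu0 k (by omega), sub_zero, norm_mul, RCLike.norm_ofReal, abs_of_pos (Real.exp_pos _)]
    refine le_trans ?_ hKe
    apply mul_le_mul _ (hM _) (norm_nonneg _) (Real.exp_pos _).le
    apply Real.exp_le_exp.mpr
    linarith [hc ((k - n0) / L)]
  · rw [hu0 k (by omega)]
    simpa using hε.le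

theorem blk_hit {𝕜 : Type*} [RCLike 𝕜] (n0 L I : ℕ) (hL : 0 < L) (c : ℕ → ℝ) (w u0 : ℕ → 𝕜)
    (hw : ∀ k, L ≤ k → w k = 0) (M K δ ε : ℝ) (hM : ∀ k, ‖w k‖ ≤ M) (hKe : Real.exp (-K) * M ≤ ε)
    (hδe : (Real.exp δ - 1) * M ≤ ε) (hε : 0 < ε) (i : ℕ) (hi : i < I) (X : ℝ) (hX : |X - c i| ≤ δ)
    (hj : ∀ j, i < j → K ≤ c j - X) (k : ℕ) :
    ‖((Real.exp X : ℝ) : 𝕜) * blk n0 L I c w u0 (k + (n0 + L * i)) - w k‖ ≤ ε := by
  unfold blk
  have h1 : ¬ (k + (n0 + L * i) < n0) := by omega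
  have h2 : k + (n0 + L * i) - n0 = k + L * i := by omega
  rw [if_neg h1, h2, Nat.add_mul_div_left _ _ hL, Nat.add_mul_mod_self_left]
  by_cases hk : k < L
  · rw [Nat.div_eq_of_lt hk, Nat.mod_eq_of_lt hk, zero_add, if_pos hi, ← mul_assoc, ← RCLike.ofReal_mul,
      ← Real.exp_add]
    have h3 : ((Real.exp (X + -c i) : ℝ) : 𝕜) * w k - w k
        = ((Real.exp (X - c i) - 1 : ℝ) : 𝕜) * w k := by
      rw [← sub_eq_add_neg, RCLike.ofReal_sub, RCLike.ofReal_one]; ring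
    rw [h3, norm_mul, RCLike.norm_ofReal]
    refine le_trans ?_ hδe
    exact mul_le_mul (exp_sub_one_le hX) (hM _) (norm_nonneg _)
      (le_trans (abs_nonneg _) (exp_sub_one_le hX))
  · rw [hw k (by omega), sub_zero]
    have hkL : 0 < k / L := Nat.div_pos (by omega) hL
    split_ifs with h4
    · rw [← mul_assoc, ← RCLike.ofReal_mul, ← Real.exp_add, norm_mul, RCLike.norm_ofReal,
        abs_of_pos (Real.exp_pos _)]
      refine le_trans ?_ hKe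
      apply mul_le_mul _ (hM _) (norm_nonneg _) (Real.exp_pos _).le
      apply Real.exp_le_exp.mpr
      have := hj (k / L + i) (by omega)
      linarith
    · simpa using hε.le

theorem exists_interval (τ : ℕ → ℝ) (I : ℕ) (t : ℝ) (h0 : τ 0 ≤ t) (hI : t < τ I) :
    ∃ i < I, τ i ≤ t ∧ t ≤ τ (i + 1) := by
  induction I with
  | zero => linarith
  | succ I ih =>
    by_cases h : t < τ I
    · obtain ⟨i, hi, h1⟩ := ih h
      exact ⟨i, by omega, h1⟩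
    · exact ⟨I, by omega, by linarith, hI.le⟩

/-- one target -/
theorem one_target {𝕜 : Type*} [RCLike 𝕜] (ξ η : ℝ → ℝ) (C m : ℝ) (hC : 0 ≤ C) (hm : 0 < m)
    (hξ : ∀ t, m ≤ ξ t) (hη : ∀ t, m ≤ η t) (hξm : Modu C ξ) (hηm : Modu C η)
    (u0 v0 w z : ℕ → 𝕜) (S : ℕ) (hu0 : ∀ k, S ≤ k → u0 k = 0) (hv0 : ∀ k, S ≤ k → v0 k = 0)
    (hw : ∀ k, S ≤ k → w k = 0) (hz : ∀ k, S ≤ k → z k = 0) (ε : ℝ) (hε : 0 < ε) :
    ∃ (u v : ℕ → 𝕜) (S' : ℕ), (∀ k, S' ≤ k → u k = 0) ∧ (∀ k, S' ≤ k → v k = 0) ∧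
      (∀ k, ‖u k - u0 k‖ ≤ ε) ∧ (∀ k, ‖v k - v0 k‖ ≤ ε) ∧
      ∀ t ∈ Icc (0 : ℝ) 1, ∃ n : ℕ, ∀ k,
        ‖((Real.exp (n * ξ t) : ℝ) : 𝕜) * u (k + n) - w k‖ ≤ ε ∧
        ‖((Real.exp (n * η t) : ℝ) : 𝕜) * v (k + n) - z k‖ ≤ ε := by
  -- a bound for w and z
  obtain ⟨M, hM1, hMw, hMz⟩ : ∃ M : ℝ, 0 < M ∧ (∀ k, ‖w k‖ ≤ M) ∧ (∀ k, ‖z k‖ ≤ M) := by
    refine ⟨1 + ∑ k ∈ Finset.range S, (‖w k‖ + ‖z k‖), by positivity, ?_, ?_⟩
    · intro k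
      by_cases hk : k < S
      · have h1 : ‖w k‖ + ‖z k‖ ≤ ∑ k ∈ Finset.range S, (‖w k‖ + ‖z k‖) :=
          Finset.single_le_sum (f := fun k => ‖w k‖ + ‖z k‖) (fun _ _ => by positivity)
            (Finset.mem_range.mpr hk)
        have h2 := norm_nonneg (z k)
        linarith
      · rw [hw k (by omega), norm_zero]; positivity
    · intro k
      by_cases hk : k < S
      · have h1 : ‖w k‖ + ‖z k‖ ≤ ∑ k ∈ Finset.range S, (‖w k‖ + ‖z k‖) :=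
          Finset.single_le_sum (f := fun k => ‖w k‖ + ‖z k‖) (fun _ _ => by positivity)
            (Finset.mem_range.mpr hk)
        have h2 := norm_nonneg (w k)
        linarith
      · rw [hz k (by omega), norm_zero]; positivity
  -- K and δ
  obtain ⟨K, hK⟩ : ∃ K : ℝ, Real.exp (-K) * M ≤ ε := by
    refine ⟨-Real.log (ε / M), ?_⟩
    rw [neg_neg, Real.exp_log (by positivity)]
    field_simp
    exact le_rfl
  obtain ⟨δ, hδ, hδe⟩ : ∃ δ : ℝ, 0 < δ ∧ (Real.exp δ - 1) * M ≤ ε := by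
    refine ⟨Real.log (1 + ε / M), Real.log_pos (by
      have : 0 < ε / M := by positivity
      linarith), ?_⟩
    rw [Real.exp_log (by positivity)]
    field_simp
    linarith
  obtain ⟨L, n0, I, τ, hLS, hL, hn0, hτ0, hτI, hmain⟩ := times C m K δ hC hm hδ S S
  obtain ⟨hA1, hA2, hA3⟩ := hmain ξ hξ hξm
  obtain ⟨hB1, hB2, hB3⟩ := hmain η hη hηm
  refine ⟨blk n0 L I (fun i => ((n0 + L * i : ℕ) : ℝ) * ξ (τ i)) w u0,
    blk n0 L I (fun i => ((n0 + L * i : ℕ) : ℝ) * η (τ i)) z v0, n0 + L * I,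
    fun k hk => blk_zero _ _ _ hL _ _ _ _ hk, fun k hk => blk_zero _ _ _ hL _ _ _ _ hk, ?_, ?_, ?_⟩
  · exact blk_close n0 L I hL _ w u0 (fun k hk => hu0 k (by omega)) M K ε hMw hK hε hA1
  · exact blk_close n0 L I hL _ z v0 (fun k hk => hv0 k (by omega)) M K ε hMz hK hε hB1
  · intro t ht
    obtain ⟨i, hi, h1, h2⟩ := exists_interval τ I t (by rw [hτ0]; exact ht.1) (lt_of_le_of_lt ht.2 hτI)
    refine ⟨n0 + L * i, fun k => ⟨?_, ?_⟩⟩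
    · exact blk_hit n0 L I hL _ w u0 (fun k hk => hw k (by omega)) M K δ ε hMw hK hδe hε i hi _
        (hA2 i t h1 h2) (fun j hij => hA3 i j t hij h1 h2) k
    · exact blk_hit n0 L I hL _ z v0 (fun k hk => hz k (by omega)) M K δ ε hMz hK hδe hε i hi _
        (hB2 i t h1 h2) (fun j hij => hB3 i j t hij h1 h2) k

end Pool.Agent.Q128.TK
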