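import Mathlib
import Pool.Agent.Q54.TK.StmB

set_option autoImplicit false

namespace Pool.Agent.Q128.TK

open Finset Pool.Agent.Q54.TK

/-- the edges at `w` which meet the set `U` in a vertex different from `w` -/
theorem meet_le {V : Type} [DecidableEq V] (F : Finset (Finset V)) (w : V) (U : Finset V) (hw : w ∉ U)
    (D : ℕ) (hD : ∀ x, x ≠ w → dg F {w, x} ≤ D) :
    (F.filter (fun e => w ∈ e ∧ ¬ Disjoint e U)).card ≤ U.card * D := by
  calc _ ≤ (U.biUnion (fun x => F.filter (fun e => ({w, x} : Finset V) ⊆ e))).card := by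
        apply card_le_card
        intro e he
        rw [mem_filter] at he
        obtain ⟨heF, hwe, hd⟩ := he
        rw [Finset.not_disjoint_iff] at hd
        obtain ⟨x, hxe, hxU⟩ := hd
        rw [mem_biUnion]
        refine ⟨x, hxU, mem_filter.2 ⟨heF, ?_⟩⟩
        intro y hy
        rw [mem_insert, mem_singleton] at hy
        rcases hy with rfl | rfl <;> assumption
    _ ≤ ∑ x ∈ U, (F.filter (fun e => ({w, x} : Finset V) ⊆ e)).card := card_biUnion_le
    _ ≤ ∑ x ∈ U, D := Finset.sum_le_sum (fun x hx => hD x (fun h => hw (h ▸ hx)))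
    _ = U.card * D := by rw [sum_const, smul_eq_mul]

theorem grd (hdeg : S_DEG) : S_GRD := by
  classical
  intro V _ _ F k s X B L hLc hLF hLP hLX hBX hB
  have hyp := hLc.hyp
  have hk2 := hyp.k2
  -- maximal extension
  obtain ⟨L', hL', hmax⟩ := Finset.exists_max_image
    (F.powerset.filter (fun L' => L ⊆ L' ∧ PD L' ∧ ∀ e ∈ L', ¬ e ⊆ X))
    Finset.card ⟨L, mem_filter.2 ⟨mem_powerset.2 hLF, subset_rfl, hLP, hLX⟩⟩
  rw [mem_filter, mem_powerset] at hL'
  obtain ⟨hL'F, hLL', hL'P, hL'X⟩ := hL'
  refine ⟨L', hLL', hL'F, hL'P, hL'X, fun w hw => ?_⟩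
  by_contra hcon
  push Not at hcon
  have hwX : w ∉ X := fun h => Finset.disjoint_left.1 hBX hw h
  -- the number of edges of `L'`
  have hmat := hLc.mat L' hL'F hL'P hL'X
  have hcard : L'.card ≤ ∑ e ∈ L', (e \ X).card := by
    rw [Finset.card_eq_sum_ones]
    apply Finset.sum_le_sum
    intro e he
    rw [Nat.one_le_iff_ne_zero, Ne, Finset.card_eq_zero, Finset.sdiff_eq_empty_iff_subset]
    exact hL'X e he
  set U : Finset V := L'.biUnion id with hU
  have hUc : U.card ≤ k * L'.card := by
    calc U.card ≤ ∑ e ∈ L', (id e : Finset V).card := card_biUnion_le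
      _ = ∑ e ∈ L', k := Finset.sum_congr rfl (fun e he => hyp.uf e (hL'F he))
      _ = k * L'.card := by rw [sum_const, smul_eq_mul, mul_comm]
  have hwU : w ∉ U := by
    rw [hU, mem_biUnion]
    rintro ⟨e, he, hwe⟩
    exact hcon e he hwe
  have hD : ∀ x, x ≠ w → dg F {w, x} ≤ (k * s) ^ (k - 2) := by
    intro x hx
    have h1 := hdeg V F k s hyp {w, x} (by rw [card_pair hx.symm]; exact hk2)
    rwa [card_pair hx.symm] at h1
  have hmeet := meet_le F w U hwU ((k * s) ^ (k - 2)) hD
  -- an edge at `w` which avoids `U`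
  have hex : ∃ e ∈ F, w ∈ e ∧ Disjoint e U := by
    by_contra hno
    push Not at hno
    have h1 : dg F {w} ≤ (F.filter (fun e => w ∈ e ∧ ¬ Disjoint e U)).card := by
      unfold dg
      apply card_le_card
      intro e he
      rw [mem_filter, singleton_subset_iff] at he
      exact mem_filter.2 ⟨he.1, he.2, hno e he.1 he.2⟩
    have h2 := hB w hw
    have h3 : U.card * (k * s) ^ (k - 2) ≤
        k * (k * s + k - 1 - X.card + 1) * (k * s) ^ (k - 2) := by
      apply Nat.mul_le_mul_right
      refine hUc.trans (Nat.mul_le_mul_left _ ?_)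
      omega
    omega
  obtain ⟨e, heF, hwe, hed⟩ := hex
  have heX : ¬ e ⊆ X := fun h => hwX (h hwe)
  have heL : e ∉ L' := fun h => hcon e h hwe
  have hdis : ∀ f ∈ L', Disjoint e f := by
    intro f hf
    exact Finset.disjoint_of_subset_right (Finset.subset_biUnion_of_mem id hf) hed
  have hnew : insert e L' ∈ F.powerset.filter (fun L' => L ⊆ L' ∧ PD L' ∧ ∀ e ∈ L', ¬ e ⊆ X) := by
    rw [mem_filter, mem_powerset]
    refine ⟨Finset.insert_subset heF hL'F, hLL'.trans (Finset.subset_insert _ _), ?_, ?_⟩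
    · intro a ha b hb hab
      rw [mem_insert] at ha hb
      rcases ha with rfl | ha <;> rcases hb with rfl | hb
      · exact absurd rfl hab
      · exact hdis b hb
      · exact (hdis a ha).symm
      · exact hL'P a ha b hb hab
    · intro a ha
      rw [mem_insert] at ha
      rcases ha with rfl | ha
      · exact heX
      · exact hL'X a ha
  have h4 := hmax _ hnew
  rw [card_insert_of_notMem heL] at h4
  omega

end Pool.Agent.Q128.TK
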