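import Mathlib
import Pool.Agent.Q54.TK.StmB

set_option autoImplicit false

namespace Pool.Agent.Q128.TK

open Finset Pool.Agent.Q54.TK

theorem choose_add_ge (m d k : ℕ) (hk : 1 ≤ k) :
    m.choose k + d * m.choose (k - 1) ≤ (m + d).choose k := by
  induction d with
  | zero => simp
  | succ d ih =>
    obtain ⟨r, rfl⟩ : ∃ r, k = r + 1 := ⟨k - 1, by omega⟩
    have h1 : (m + (d + 1)).choose (r + 1) = (m + d).choose r + (m + d).choose (r + 1) := by
      rw [← add_assoc, Nat.choose_succ_succ]
    have h2 : m.choose r ≤ (m + d).choose r := Nat.choose_le_choose r (by omega)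
    rw [h1]
    simp only [Nat.add_sub_cancel] at ih ⊢
    nlinarith

theorem l4 (h3 : S_L3) : S_L4 := by
  classical
  intro k hk
  set K : ℕ := 2 * k ^ 2 * 4 ^ (k - 1) * (k - 1).factorial with hK
  have hKpos : 0 < K := by
    have := Nat.factorial_pos (k - 1)
    positivity
  have hK2 : 2 ≤ K := by
    have h1 : 1 ≤ k ^ 2 := Nat.one_le_pow _ _ (by omega)
    have h2 : 1 ≤ 4 ^ (k - 1) := Nat.one_le_pow _ _ (by norm_num)
    have h3 : 1 ≤ (k - 1).factorial := Nat.factorial_pos _
    calc 2 = 2 * 1 * 1 * 1 := by norm_num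
      _ ≤ 2 * k ^ 2 * 4 ^ (k - 1) * (k - 1).factorial := by gcongr
  refine ⟨1 / (K : ℝ), by positivity, K + 4, fun s hs V _ _ F X hLc hX => ?_⟩
  have hyp := hLc.hyp
  obtain ⟨B, hBX, hBc, hF⟩ := h3 V F k s X hLc
  have hXN : X.card ≤ k * s + k - 1 := by
    have := hLc.mat ∅ (Finset.empty_subset _) (by intro e he; simp at he) (by intro e he; simp at he)
    simpa using this
  -- the size of `X`
  have hX' : K * (k * s) ≤ k * s + K * X.card := by
    have h1 : (K : ℝ) * ((1 - 1 / (K : ℝ)) * (k * s)) ≤ K * X.card :=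
      mul_le_mul_of_nonneg_left hX (by positivity)
    have h2 : (K : ℝ) * ((1 - 1 / (K : ℝ)) * (k * s)) = K * (k * s) - k * s := by
      field_simp
    rw [h2] at h1
    have h4 : (K : ℝ) * (k * s) ≤ k * s + K * X.card := by linarith
    exact_mod_cast h4
  set j : ℕ := k * s + k - 1 - X.card with hj
  have hjX : j + 1 + X.card = k * s + k := by omega
  set m : ℕ := X.card + B.card with hm
  set d : ℕ := j - B.card with hd
  have hmd : m + d = k * s + k - 1 := by omega
  have hXm : X.card ≤ m := by omega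
  -- `K (j+1) ≤ 2 k s`
  have hKs : K * k ≤ k * s := by
    have : K ≤ s := by omega
    calc K * k = k * K := mul_comm _ _
      _ ≤ k * s := Nat.mul_le_mul_left _ this
  have hKj : K * (j + 1) ≤ 2 * (k * s) := by
    have h1 : K * (j + 1) + K * X.card = K * (k * s) + K * k := by
      rw [← mul_add, hjX, mul_add]
    omega
  -- `2 |X| ≥ k s`
  have hX2 : k * s ≤ 2 * X.card := by
    by_contra hcon
    rw [not_le] at hcon
    have h1 : K * (2 * X.card + 1) ≤ K * (k * s) := Nat.mul_le_mul_left _ hcon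
    have h2 : K * (k * s) ≤ k * s + K * X.card := hX'
    -- K (2|X| + 1) ≤ ks + K|X|, K|X| + K ≤ ks ; ks K ≤ ks + K |X| ≤ 2 ks - K
    have h4 : 2 * (k * s) ≤ K * (k * s) := Nat.mul_le_mul_right _ hK2
    have h5 : K * (2 * X.card + 1) = 2 * (K * X.card) + K := by ring
    omega
  have hm4 : k * s ≤ 4 * (m + 2 - k) := by
    have h1 : 4 * k ≤ k * s := by
      calc 4 * k = k * 4 := mul_comm _ _
        _ ≤ k * s := Nat.mul_le_mul_left _ (by omega)
    omega
  -- the main numerical inequality
  have hnum : k * (k * (j + 1) * (k * s) ^ (k - 2)) ≤ m.choose (k - 1) := by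
    have h1 : (k * s) ^ (k - 1) ≤ 4 ^ (k - 1) * ((k - 1).factorial * m.choose (k - 1)) := by
      calc (k * s) ^ (k - 1) ≤ (4 * (m + 2 - k)) ^ (k - 1) := Nat.pow_le_pow_left hm4 _
        _ = 4 ^ (k - 1) * (m + 2 - k) ^ (k - 1) := mul_pow _ _ _
        _ ≤ 4 ^ (k - 1) * m.descFactorial (k - 1) := by
            apply Nat.mul_le_mul_left
            have := Nat.pow_sub_le_descFactorial m (k - 1)
            have e : m + 2 - k = m + 1 - (k - 1) := by omega
            rwa [e]
        _ = _ := by rw [Nat.descFactorial_eq_factorial_mul_choose]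
    have h2 : 2 * (4 ^ (k - 1) * (k - 1).factorial * (k * (k * (j + 1) * (k * s) ^ (k - 2)))) ≤
        2 * (4 ^ (k - 1) * (k - 1).factorial * m.choose (k - 1)) := by
      calc 2 * (4 ^ (k - 1) * (k - 1).factorial * (k * (k * (j + 1) * (k * s) ^ (k - 2))))
          = (K * (j + 1)) * (k * s) ^ (k - 2) := by rw [hK]; ring
        _ ≤ (2 * (k * s)) * (k * s) ^ (k - 2) := Nat.mul_le_mul_right _ hKj
        _ = 2 * (k * s) ^ (k - 1) := by
            have e : k - 1 = (k - 2) + 1 := by omega
            rw [e, pow_succ]; ring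
        _ ≤ 2 * (4 ^ (k - 1) * ((k - 1).factorial * m.choose (k - 1))) := Nat.mul_le_mul_left _ h1
        _ = _ := by ring
    have h5 : 0 < 4 ^ (k - 1) * (k - 1).factorial := by
      have := Nat.factorial_pos (k - 1)
      positivity
    exact Nat.le_of_mul_le_mul_left (Nat.le_of_mul_le_mul_left h2 two_pos) h5
  -- counting
  have hsplit : F.card ≤ m.choose k + (F.filter (fun e => ¬ e ⊆ X ∪ B)).card := by
    have h1 := Finset.card_filter_add_card_filter_not (s := F) (fun e => e ⊆ X ∪ B)
    have h2 : (F.filter (fun e => e ⊆ X ∪ B)).card ≤ m.choose k := by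
      calc (F.filter (fun e => e ⊆ X ∪ B)).card ≤ ((X ∪ B).powersetCard k).card := by
            apply card_le_card
            intro e he
            rw [mem_filter] at he
            exact mem_powersetCard.2 ⟨he.2, hyp.uf e he.1⟩
        _ = (X ∪ B).card.choose k := card_powersetCard _ _
        _ = m.choose k := by rw [card_union_of_disjoint hBX.symm]
    omega
  calc F.card ≤ m.choose k + (F.filter (fun e => ¬ e ⊆ X ∪ B)).card := hsplit
    _ ≤ m.choose k + k * (j - B.card) * (k * (j + 1) * (k * s) ^ (k - 2)) :=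
        Nat.add_le_add_left hF _
    _ = m.choose k + d * (k * (k * (j + 1) * (k * s) ^ (k - 2))) := by rw [hd]; ring
    _ ≤ m.choose k + d * m.choose (k - 1) := Nat.add_le_add_left (Nat.mul_le_mul_left _ hnum) _
    _ ≤ (m + d).choose k := choose_add_ge m d k (by omega)
    _ = (k * s + k - 1).choose k := by rw [hmd]

end Pool.Agent.Q128.TK
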