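import Mathlib

namespace Pool.Agent.Q128.TK

open Set Filter Topology

/-- the modulus of continuity `h log (1/h)` in a discrete form -/
def Modu (C : ℝ) (ξ : ℝ → ℝ) : Prop :=
  ∀ (s t : ℝ) (N : ℕ), |ξ s - ξ t| ≤ C * (N * |s - t| + (1 / 2) ^ N)

theorem modu_step {C : ℝ} (hC : 0 ≤ C) {ξ : ℝ → ℝ} (h : Modu C ξ) {n δ h0 s t : ℝ} (hδ : 0 < δ)
    (hn3 : 3 ≤ n) (hn : 2 * C ≤ δ * n) (hst : |s - t| ≤ h0) (hh0 : 10 * C * h0 * (n * Real.log n) ≤ δ) :
    n * |ξ s - ξ t| ≤ δ := by
  have hnpos : 0 < n := by linarith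
  have hlog : 1 ≤ Real.log n := by
    rw [← Real.log_exp 1]
    apply Real.log_le_log (Real.exp_pos 1)
    have := Real.exp_one_lt_d9
    linarith
  have h00 : 0 ≤ h0 := le_trans (abs_nonneg _) hst
  set N : ℕ := ⌈4 * Real.log n⌉₊ with hN
  have hN1 : 4 * Real.log n ≤ N := Nat.le_ceil _
  have hN2 : (N : ℝ) ≤ 5 * Real.log n := by
    have := Nat.ceil_lt_add_one (a := 4 * Real.log n) (by linarith)
    linarith
  have hpow : ((1 : ℝ) / 2) ^ N ≤ 1 / (n * n) := by
    have h1 : ((1 : ℝ) / 2) ≤ Real.exp (-(1 / 2)) := by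
      have h2 : Real.exp (1/2) ≤ 2 := by
        have h3 : Real.exp (1/2) * Real.exp (1/2) = Real.exp 1 := by
          rw [← Real.exp_add]; norm_num
        have h4 := Real.exp_one_lt_d9
        by_contra h5
        push Not at h5
        nlinarith [Real.exp_pos (1/2)]
      rw [Real.exp_neg]
      calc (1 : ℝ) / 2 = (2 : ℝ)⁻¹ := one_div 2
        _ ≤ (Real.exp (1 / 2))⁻¹ := inv_anti₀ (Real.exp_pos _) h2
    calc ((1 : ℝ) / 2) ^ N ≤ (Real.exp (-(1/2))) ^ N := pow_le_pow_left₀ (by norm_num) h1 N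
      _ = Real.exp (-(N/2)) := by
          rw [← Real.exp_nat_mul]; congr 1; ring
      _ ≤ Real.exp (-(Real.log n + Real.log n)) := by
          apply Real.exp_le_exp.mpr; linarith
      _ = 1 / (n * n) := by
          rw [Real.exp_neg, Real.exp_add, Real.exp_log hnpos, one_div]
  have h1 := h s t N
  have h2 : C * (N * |s - t| + (1 / 2) ^ N) ≤ C * (5 * Real.log n * h0 + 1 / (n * n)) := by
    apply mul_le_mul_of_nonneg_left _ hC
    apply add_le_add _ hpow
    apply mul_le_mul hN2 hst (abs_nonneg _) (by linarith)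
  calc n * |ξ s - ξ t| ≤ n * (C * (5 * Real.log n * h0 + 1 / (n * n))) := by
        apply mul_le_mul_of_nonneg_left (h1.trans h2) hnpos.le
    _ = 5 * C * h0 * (n * Real.log n) + C / n := by
        field_simp
    _ ≤ δ / 2 + δ / 2 := by
        apply add_le_add
        · linarith
        · rw [div_le_iff₀ hnpos]; linarith
    _ = δ := by ring

/-- the nodes -/
noncomputable def nodes (κ : ℝ) (n0 L : ℕ) (i : ℕ) : ℝ :=
  κ * (Real.log (Real.log ((n0 + L * i : ℕ) : ℝ)) - Real.log (Real.log (n0 : ℝ)))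

theorem log_pos_of_three {n : ℝ} (hn3 : 3 ≤ n) : 1 ≤ Real.log n := by
  rw [← Real.log_exp 1]
  apply Real.log_le_log (Real.exp_pos 1)
  have := Real.exp_one_lt_d9
  linarith

theorem loglog_step {n l : ℝ} (hn3 : 3 ≤ n) (hl : 0 ≤ l) :
    Real.log (Real.log (n + l)) - Real.log (Real.log n) ≤ l / (n * Real.log n) := by
  have hnpos : 0 < n := by linarith
  have h1 := log_pos_of_three hn3
  have h2 : 1 ≤ Real.log (n + l) := log_pos_of_three (by linarith)
  rw [← Real.log_div (by linarith) (by linarith)]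
  have h3 := Real.log_le_sub_one_of_pos (x := Real.log (n + l) / Real.log n) (by positivity)
  have h4 : Real.log (n + l) - Real.log n ≤ l / n := by
    rw [← Real.log_div (by linarith) (by linarith)]
    have h5 := Real.log_le_sub_one_of_pos (x := (n + l) / n) (by positivity)
    have : (n + l) / n - 1 = l / n := by field_simp; ring
    linarith
  calc Real.log (Real.log (n + l) / Real.log n) ≤ Real.log (n + l) / Real.log n - 1 := h3
    _ = (Real.log (n + l) - Real.log n) / Real.log n := by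
        field_simp
    _ ≤ (l / n) / Real.log n := by
        apply div_le_div_of_nonneg_right h4 (by linarith)
    _ = l / (n * Real.log n) := by rw [div_div]

theorem nodes_tendsto {κ : ℝ} (hκ : 0 < κ) (n0 L : ℕ) (hL : 0 < L) :
    Tendsto (nodes κ n0 L) atTop atTop := by
  unfold nodes
  apply Tendsto.const_mul_atTop hκ
  apply tendsto_atTop_add_const_right
  apply Real.tendsto_log_atTop.comp
  apply Real.tendsto_log_atTop.comp
  apply tendsto_natCast_atTop_atTop.comp
  apply tendsto_atTop_mono (f := fun i => i) _ tendsto_id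
  intro i
  nlinarith

theorem times (C m K δ : ℝ) (hC : 0 ≤ C) (hm : 0 < m) (hδ : 0 < δ) (n1 L0 : ℕ) :
    ∃ (L n0 I : ℕ) (τ : ℕ → ℝ), L0 ≤ L ∧ 0 < L ∧ n1 ≤ n0 ∧ τ 0 = 0 ∧ 1 < τ I ∧
      ∀ ξ : ℝ → ℝ, (∀ t, m ≤ ξ t) → Modu C ξ →
        (∀ i : ℕ, K ≤ ((n0 + L * i : ℕ) : ℝ) * ξ (τ i)) ∧
        (∀ (i : ℕ) (t : ℝ), τ i ≤ t → t ≤ τ (i + 1) →
          |((n0 + L * i : ℕ) : ℝ) * ξ t - ((n0 + L * i : ℕ) : ℝ) * ξ (τ i)| ≤ δ) ∧
        (∀ (i j : ℕ) (t : ℝ), i < j → τ i ≤ t → t ≤ τ (i + 1) →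
          K ≤ ((n0 + L * j : ℕ) : ℝ) * ξ (τ j) - ((n0 + L * i : ℕ) : ℝ) * ξ t) := by
  -- choice of L
  obtain ⟨L1, hL1⟩ := exists_nat_ge ((|K| + 3 * δ) / m)
  set L : ℕ := L0 + L1 + 1 with hLdef
  have hLm : |K| + 3 * δ ≤ L * m := by
    have : (|K| + 3 * δ) / m ≤ L := by
      rw [hLdef]; push_cast
      have : (0 : ℝ) ≤ L0 := by positivity
      linarith
    rwa [div_le_iff₀ hm] at this
  have hLpos : 0 < L := by omega
  have hLposR : (0 : ℝ) < L := by exact_mod_cast hLpos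
  obtain ⟨M1, hM1⟩ := exists_nat_ge (2 * C / δ)
  set n0 : ℕ := n1 + L + M1 + 3 with hn0def
  have hn03 : (3 : ℝ) ≤ n0 := by
    have : 3 ≤ n0 := by omega
    exact_mod_cast this
  have hn0L : L ≤ n0 := by omega
  have hn0C : 2 * C ≤ δ * n0 := by
    have : 2 * C / δ ≤ n0 := by
      refine hM1.trans ?_
      have : M1 ≤ n0 := by omega
      exact_mod_cast this
    rw [div_le_iff₀ hδ] at this
    linarith
  set κ : ℝ := δ / (10 * L * (C + 1)) with hκdef
  have hκ : 0 < κ := by positivity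
  obtain ⟨I, hI⟩ := ((nodes_tendsto hκ n0 L hLpos).eventually (eventually_gt_atTop 1)).exists
  refine ⟨L, n0, I, nodes κ n0 L, by omega, hLpos, by omega, by simp [nodes], hI, ?_⟩
  intro ξ hξ hmod
  -- notation for times
  have hni : ∀ i : ℕ, (n0 : ℝ) ≤ ((n0 + L * i : ℕ) : ℝ) := fun i => by
    push_cast
    have : (0 : ℝ) ≤ (L : ℝ) * i := by positivity
    linarith
  have hni3 : ∀ i : ℕ, (3 : ℝ) ≤ ((n0 + L * i : ℕ) : ℝ) := fun i => hn03.trans (hni i)
  have hnstep : ∀ i : ℕ, ((n0 + L * (i + 1) : ℕ) : ℝ) = ((n0 + L * i : ℕ) : ℝ) + L := fun i => by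
    push_cast; ring
  have hclose : ∀ (i : ℕ) (t : ℝ), nodes κ n0 L i ≤ t → t ≤ nodes κ n0 L (i + 1) →
      ((n0 + L * i : ℕ) : ℝ) * |ξ t - ξ (nodes κ n0 L i)| ≤ δ := by
    intro i t h1 h2
    set n : ℝ := ((n0 + L * i : ℕ) : ℝ) with hn
    have hn3 : 3 ≤ n := hni3 i
    have hlog := log_pos_of_three hn3
    have hnC : 2 * C ≤ δ * n := hn0C.trans (mul_le_mul_of_nonneg_left (hni i) hδ.le)
    apply modu_step hC hmod (h0 := κ * (L / (n * Real.log n))) hδ hn3 hnC
    · rw [abs_of_nonneg (by linarith)]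
      have h3 : nodes κ n0 L (i + 1) - nodes κ n0 L i =
          κ * (Real.log (Real.log (n + L)) - Real.log (Real.log n)) := by
        unfold nodes
        rw [hnstep i]
        ring
      have h4 := loglog_step (n := n) (l := L) hn3 hLposR.le
      have h5 := mul_le_mul_of_nonneg_left h4 hκ.le
      linarith
    · have hpos : 0 < n * Real.log n := by positivity
      have : 10 * C * (κ * (L / (n * Real.log n))) * (n * Real.log n) = 10 * C * κ * L := by
        field_simp
      rw [this, hκdef]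
      have : 10 * C * (δ / (10 * L * (C + 1))) * L = δ * (C / (C + 1)) := by
        field_simp
      rw [this]
      have h6 : C / (C + 1) ≤ 1 := by
        rw [div_le_one (by linarith)]; linarith
      nlinarith
  have hmono : ∀ i : ℕ, nodes κ n0 L i ≤ nodes κ n0 L (i + 1) := by
    intro i
    unfold nodes
    apply mul_le_mul_of_nonneg_left _ hκ.le
    have h1 := log_pos_of_three (hni3 i)
    have h2 : Real.log ((n0 + L * i : ℕ) : ℝ) ≤ Real.log ((n0 + L * (i + 1) : ℕ) : ℝ) := by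
      apply Real.log_le_log (by linarith [hni3 i])
      rw [hnstep i]; linarith
    have h3 := Real.log_le_log (by linarith) h2
    linarith
  -- one step inequality
  have hstep : ∀ i : ℕ, ((n0 + L * i : ℕ) : ℝ) * ξ (nodes κ n0 L i) + L * m - 2 * δ ≤
      ((n0 + L * (i + 1) : ℕ) : ℝ) * ξ (nodes κ n0 L (i + 1)) := by
    intro i
    have h1 := hclose i (nodes κ n0 L (i + 1)) (hmono i) le_rfl
    rw [hnstep i]
    set n : ℝ := ((n0 + L * i : ℕ) : ℝ) with hn
    have hn3 : 3 ≤ n := hni3 i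
    have hnL : (L : ℝ) ≤ n := le_trans (by exact_mod_cast hn0L) (hni i)
    set x := ξ (nodes κ n0 L i)
    set y := ξ (nodes κ n0 L (i + 1))
    have hx : m ≤ x := hξ _
    have h2 : x - y ≤ |y - x| := by rw [abs_sub_comm]; exact le_abs_self _
    have h3 : n * (x - y) ≤ δ := (mul_le_mul_of_nonneg_left h2 (by linarith)).trans h1
    have h4 : L * (x - y) ≤ δ := by
      have : L * (x - y) ≤ L * |y - x| := mul_le_mul_of_nonneg_left h2 hLposR.le
      have : (L : ℝ) * |y - x| ≤ n * |y - x| := mul_le_mul_of_nonneg_right hnL (abs_nonneg _)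
      linarith
    have h5 : (L : ℝ) * m ≤ L * x := mul_le_mul_of_nonneg_left hx hLposR.le
    nlinarith
  have hKabs : K ≤ |K| := le_abs_self K
  have hKnn : 0 ≤ |K| := abs_nonneg K
  have hchain : ∀ (i d : ℕ), ((n0 + L * i : ℕ) : ℝ) * ξ (nodes κ n0 L i) ≤
      ((n0 + L * (i + d) : ℕ) : ℝ) * ξ (nodes κ n0 L (i + d)) := by
    intro i d
    induction d with
    | zero => simp
    | succ d ih =>
      have := hstep (i + d)
      rw [← add_assoc]
      linarith
  refine ⟨?_, ?_, ?_⟩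
  · intro i
    have h1 := hchain 0 i
    rw [zero_add] at h1
    refine le_trans ?_ h1
    have h2 : (L : ℝ) * m ≤ ((n0 + L * 0 : ℕ) : ℝ) * ξ (nodes κ n0 L 0) := by
      apply mul_le_mul _ (hξ _) hm.le (by positivity)
      have : L ≤ n0 + L * 0 := by omega
      exact_mod_cast this
    linarith
  · intro i t h1 h2
    rw [← mul_sub, abs_mul, abs_of_nonneg (by positivity)]
    exact hclose i t h1 h2
  · intro i j t hij h1 h2
    obtain ⟨d, rfl⟩ : ∃ d, j = (i + 1) + d := ⟨j - (i + 1), by omega⟩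
    have h3 := hchain (i + 1) d
    have h4 := hstep i
    have h5 := hclose i t h1 h2
    set n : ℝ := ((n0 + L * i : ℕ) : ℝ) with hn
    have h6 : n * (ξ t - ξ (nodes κ n0 L i)) ≤ δ :=
      (mul_le_mul_of_nonneg_left (le_abs_self _) (by positivity)).trans h5
    rw [mul_sub] at h6
    linarith

end Pool.Agent.Q128.TK
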